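import Mathlib

/-!
Disproof: for every prime p the set of n with n ^ 2 = p ^ k1 + 2 p ^ k2 + 3 p ^ k3 + 2 p ^ k4 + p ^ k5
is not the set of nonnegative integers of any finite union of arithmetic progressions and p-sum sets.
-/

namespace Pool.Agent.Results.MP_a804c6_nt.LinkedExponents

open Filter Polynomial Topology

/-- The set `S(f; g_1, …, g_s; p)` of the problem. -/
def solSet (p : ℕ) (f : (AlgebraicClosure ℚ)[X]) {s : ℕ} (g : Fin s → AlgebraicClosure ℚ) :
    Set ℕ :=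
  {n | ∃ k : Fin s → ℕ,
    f.eval (n : AlgebraicClosure ℚ) = ∑ j, g j * (p : AlgebraicClosure ℚ) ^ (k j)}

/-- Arithmetic progressions `{a + b n : n ∈ ℕ}` with `a, b ∈ ℕ`, as sets of rationals. -/
def IsAP (A : Set ℚ) : Prop :=
  ∃ a b : ℕ, A = {x | ∃ n : ℕ, x = (a : ℚ) + b * n}

/-- `p`-sum sets `{∑ c_j p ^ (k_j n_j) : n_1, …, n_m ∈ ℕ}` with `m ≥ 1`, `c_j ∈ ℚ`, `k_j ∈ ℕ`. -/
def IsPSumSet (p : ℕ) (A : Set ℚ) : Prop :=
  ∃ m : ℕ, 1 ≤ m ∧ ∃ (c : Fin m → ℚ) (k : Fin m → ℕ),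
    A = {x | ∃ n : Fin m → ℕ, x = ∑ j, c j * (p : ℚ) ^ (k j * n j)}

/-- `S` is the set of all nonnegative integers contained in some finite union of arithmetic
progressions and `p`-sum sets (so it holds in particular when `S` is such a union). -/
def IsTraceOfFiniteUnion (p : ℕ) (S : Set ℕ) : Prop :=
  ∃ F : Set (Set ℚ), F.Finite ∧ (∀ A ∈ F, IsAP A ∨ IsPSumSet p A) ∧
    ∀ n : ℕ, n ∈ S ↔ ∃ A ∈ F, (n : ℚ) ∈ A


theorem const_or_tendsto_zero (b : ℝ) (hb : 1 < b) (U : Ultrafilter ℕ) (r : ℕ → ℤ) (G M : ℝ)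
    (hG : 0 < G) (hM : ∀ᶠ a in (U : Filter ℕ), b ^ (r a) ≤ M) :
    (∃ z : ℤ, ∀ᶠ a in (U : Filter ℕ), r a = z) ∨
      Tendsto (fun a => G * b ^ (r a)) (U : Filter ℕ) (𝓝 0) := by
  by_cases h : ∃ z : ℤ, ∀ᶠ a in (U : Filter ℕ), r a = z
  · exact Or.inl h
  · right
    push Not at h
    have h' : ∀ z : ℤ, ∀ᶠ a in (U : Filter ℕ), r a ≠ z := h
    have hb0 : (0 : ℝ) < b := by linarith
    obtain ⟨Z, hZ⟩ : ∃ Z : ℕ, M < b ^ Z := pow_unbounded_of_one_lt M hb
    rw [Metric.tendsto_nhds]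
    intro ε hε
    obtain ⟨z0, hz0⟩ : ∃ z0 : ℕ, G / ε < b ^ z0 := pow_unbounded_of_one_lt _ hb
    have hfin : ∀ᶠ a in (U : Filter ℕ), ∀ z ∈ Finset.Icc (-(z0 : ℤ)) (Z : ℤ), r a ≠ z := by
      rw [Filter.eventually_all_finset]
      intro z _
      exact h' z
    filter_upwards [hM, hfin] with a ha1 ha2
    have hlt : r a < Z := by
      by_contra hcon
      push Not at hcon
      have : b ^ ((Z : ℕ) : ℤ) ≤ b ^ (r a) := zpow_le_zpow_right₀ hb.le hcon
      rw [zpow_natCast] at this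
      linarith
    have hlt2 : r a < -(z0 : ℤ) := by
      by_contra hcon
      push Not at hcon
      exact ha2 (r a) (Finset.mem_Icc.2 ⟨hcon, hlt.le⟩) rfl
    have hpos : 0 < b ^ (r a) := zpow_pos hb0 _
    rw [Real.dist_eq, sub_zero, abs_of_pos (mul_pos hG hpos)]
    have h3 : b ^ (r a) ≤ b ^ (-(z0 : ℤ)) := zpow_le_zpow_right₀ hb.le hlt2.le
    have h4 : b ^ (-(z0 : ℤ)) = (b ^ z0)⁻¹ := by rw [zpow_neg, zpow_natCast]
    have h5 : 0 < b ^ z0 := pow_pos hb0 _
    calc G * b ^ (r a) ≤ G * (b ^ z0)⁻¹ := by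
          rw [← h4]; exact mul_le_mul_of_nonneg_left h3 hG.le
      _ < ε := by
          rw [← div_eq_mul_inv, div_lt_iff₀ h5]
          rw [div_lt_iff₀ hε] at hz0
          linarith

theorem cluster {ι : Type*} [DecidableEq ι] (b : ℝ) (hb : 1 < b) (g : ι → ℝ) (hg : ∀ j, 0 < g j)
    (U : Ultrafilter ℕ) (hU : (U : Filter ℕ) ≤ atTop) (k : ℕ → ι → ℤ) :
    ∀ (N : ℕ) (P : ℝ[X]) (J : Finset ι), P.support.card = N →
      (∀ᶠ a in (U : Filter ℕ), P.eval (b ^ a) = ∑ j ∈ J, g j * b ^ (k a j)) →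
      (∀ d, 0 ≤ P.coeff d) ∧ P.support.card ≤ J.card := by
  intro N
  induction N with
  | zero =>
    intro P J hP _
    have : P = 0 := by
      rw [Finset.card_eq_zero] at hP
      exact Polynomial.support_eq_empty.1 hP
    subst this
    simp
  | succ N ih =>
    intro P J hP hev
    have hb0 : (0 : ℝ) < b := by linarith
    have hP0 : P ≠ 0 := by
      rintro rfl
      simp at hP
    set D := P.natDegree with hD
    set c := P.leadingCoeff with hc
    have hc0 : c ≠ 0 := by rw [hc]; exact leadingCoeff_ne_zero.2 hP0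
    -- limit of normalised values
    have hlim : Tendsto (fun a : ℕ => P.eval (b ^ a) / (b ^ a) ^ D) (U : Filter ℕ) (𝓝 c) := by
      have h1 := Polynomial.div_tendsto_atTop_leadingCoeff_div_of_degree_eq P (X ^ D : ℝ[X])
        (by rw [degree_X_pow, Polynomial.degree_eq_natDegree hP0])
      have h2 : Tendsto (fun a : ℕ => b ^ a) (U : Filter ℕ) atTop :=
        (tendsto_pow_atTop_atTop_of_one_lt hb).mono_left hU
      have h3 := h1.comp h2
      simp only [leadingCoeff_X_pow, div_one, eval_pow, eval_X] at h3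
      exact h3
    have hsum : ∀ᶠ a in (U : Filter ℕ), P.eval (b ^ a) / (b ^ a) ^ D
        = ∑ j ∈ J, g j * b ^ (k a j - (a * D : ℕ)) := by
      filter_upwards [hev] with a ha
      rw [ha, Finset.sum_div]
      refine Finset.sum_congr rfl fun j _ => ?_
      rw [zpow_sub₀ hb0.ne', zpow_natCast, pow_mul, mul_div_assoc]
    have hlim2 : Tendsto (fun a : ℕ => ∑ j ∈ J, g j * b ^ (k a j - (a * D : ℕ)))
        (U : Filter ℕ) (𝓝 c) := hlim.congr' hsum
    have hle : ∀ᶠ a in (U : Filter ℕ), ∑ j ∈ J, g j * b ^ (k a j - (a * D : ℕ)) < c + 1 :=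
      hlim2.eventually_lt_const (by linarith)
    have hdich : ∀ j ∈ J, (∃ z : ℤ, ∀ᶠ a in (U : Filter ℕ), k a j - (a * D : ℕ) = z) ∨
        Tendsto (fun a => g j * b ^ (k a j - (a * D : ℕ))) (U : Filter ℕ) (𝓝 0) := by
      intro j hj
      refine const_or_tendsto_zero b hb U _ (g j) ((c + 1) / g j) (hg j) ?_
      filter_upwards [hle] with a ha
      rw [le_div_iff₀ (hg j)]
      have : g j * b ^ (k a j - (a * D : ℕ)) ≤ ∑ j ∈ J, g j * b ^ (k a j - (a * D : ℕ)) :=
        Finset.single_le_sum (f := fun j => g j * b ^ (k a j - (a * D : ℕ)))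
          (fun i _ => (mul_pos (hg i) (zpow_pos hb0 _)).le) hj
      linarith
    classical
    set J' := J.filter (fun j => ∃ z : ℤ, ∀ᶠ a in (U : Filter ℕ), k a j - (a * D : ℕ) = z) with hJ'
    set J'' := J.filter (fun j => ¬ ∃ z : ℤ, ∀ᶠ a in (U : Filter ℕ), k a j - (a * D : ℕ) = z)
      with hJ''
    have hz : ∀ j ∈ J', ∃ z : ℤ, ∀ᶠ a in (U : Filter ℕ), k a j - (a * D : ℕ) = z := by
      intro j hj
      exact (Finset.mem_filter.1 hj).2
    choose! z hz using hz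
    have hzall : ∀ᶠ a in (U : Filter ℕ), ∀ j ∈ J', k a j - (a * D : ℕ) = z j := by
      rw [Filter.eventually_all_finset]
      exact hz
    have hsplit : ∀ a : ℕ, ∑ j ∈ J, g j * b ^ (k a j - (a * D : ℕ))
        = ∑ j ∈ J', g j * b ^ (k a j - (a * D : ℕ)) + ∑ j ∈ J'', g j * b ^ (k a j - (a * D : ℕ)) := by
      intro a
      rw [hJ', hJ'', Finset.sum_filter_add_sum_filter_not]
    have hlim3 : Tendsto (fun a : ℕ => ∑ j ∈ J'', g j * b ^ (k a j - (a * D : ℕ)))
        (U : Filter ℕ) (𝓝 0) := by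
      have : (0 : ℝ) = ∑ j ∈ J'', (0 : ℝ) := by simp
      rw [this]
      refine tendsto_finsetSum _ fun j hj => ?_
      rw [hJ'', Finset.mem_filter] at hj
      rcases hdich j hj.1 with h | h
      · exact absurd h hj.2
      · exact h
    have hlim4 : Tendsto (fun a : ℕ => ∑ j ∈ J', g j * b ^ (k a j - (a * D : ℕ)))
        (U : Filter ℕ) (𝓝 (∑ j ∈ J', g j * b ^ (z j))) := by
      refine tendsto_const_nhds.congr' ?_
      filter_upwards [hzall] with a ha
      refine Finset.sum_congr rfl fun j hj => ?_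
      rw [ha j hj]
    have hceq : c = ∑ j ∈ J', g j * b ^ (z j) := by
      have h5 := hlim4.add hlim3
      rw [add_zero] at h5
      have h6 : Tendsto (fun a : ℕ => ∑ j ∈ J, g j * b ^ (k a j - (a * D : ℕ)))
        (U : Filter ℕ) (𝓝 (∑ j ∈ J', g j * b ^ (z j))) := by
        refine h5.congr fun a => ?_
        rw [hsplit]
      exact tendsto_nhds_unique hlim2 h6
    have hcnn : 0 ≤ c := by
      rw [hceq]
      exact Finset.sum_nonneg fun j _ => (mul_pos (hg j) (zpow_pos hb0 _)).le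
    have hJ'ne : 0 < J'.card := by
      rw [Finset.card_pos]
      by_contra hne
      rw [Finset.not_nonempty_iff_eq_empty] at hne
      rw [hne] at hceq
      simp at hceq
      exact hc0 hceq
    have hcard : J'.card + J''.card = J.card := by
      rw [hJ', hJ'']
      exact Finset.card_filter_add_card_filter_not _
    have hev' : ∀ᶠ a in (U : Filter ℕ), P.eraseLead.eval (b ^ a) = ∑ j ∈ J'', g j * b ^ (k a j) := by
      filter_upwards [hev, hzall] with a ha hza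
      have h7 : P.eval (b ^ a) = P.eraseLead.eval (b ^ a) + c * (b ^ a) ^ D := by
        conv_lhs => rw [← P.eraseLead_add_monomial_natDegree_leadingCoeff]
        rw [eval_add, eval_monomial]
      have h8 : ∑ j ∈ J, g j * b ^ (k a j) = ∑ j ∈ J', g j * b ^ (k a j) + ∑ j ∈ J'', g j * b ^ (k a j) := by
        rw [hJ', hJ'', Finset.sum_filter_add_sum_filter_not]
      have h9 : ∑ j ∈ J', g j * b ^ (k a j) = c * (b ^ a) ^ D := by
        rw [hceq, Finset.sum_mul]
        refine Finset.sum_congr rfl fun j hj => ?_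
        have : k a j = z j + (a * D : ℕ) := by
          have := hza j hj
          omega
        rw [this, zpow_add₀ hb0.ne', zpow_natCast, pow_mul, mul_assoc]
      linarith
    have hcard2 : P.eraseLead.support.card = N := by
      have := Polynomial.eraseLead_support_card_lt hP0
      rw [Polynomial.card_support_eraseLead]
      omega
    obtain ⟨h10, h11⟩ := ih P.eraseLead J'' hcard2 hev'
    constructor
    · intro d
      by_cases hd : d = D
      · rw [hd]; exact hcnn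
      · have := h10 d
        rwa [Polynomial.eraseLead_coeff_of_ne _ hd] at this
    · omega

/-- the coefficient vector as reals -/
def gR : Fin 5 → ℝ := ![1, 2, 3, 2, 1]

theorem gR_pos (j : Fin 5) : 0 < gR j := by
  fin_cases j <;> simp [gR]

/-- Reformulation of membership over the reals. -/
def Sol (p t : ℕ) : Prop := ∃ k : Fin 5 → ℕ, (t : ℝ) ^ 2 = ∑ j, gR j * (p : ℝ) ^ (k j)

theorem mem_solSet_iff (p t : ℕ) :
    t ∈ solSet p (X ^ 2) ![1, 2, 3, 2, 1] ↔ Sol p t := by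
  unfold solSet Sol
  simp only [Set.mem_ofPred_eq, eval_pow, eval_X]
  refine exists_congr fun k => ?_
  simp only [Fin.sum_univ_five, gR]
  simp only [Matrix.cons_val]
  constructor
  · intro h
    have h' : t ^ 2 = 1 * p ^ k 0 + 2 * p ^ k 1 + 3 * p ^ k 2 + 2 * p ^ k 3 + 1 * p ^ k 4 := by
      exact_mod_cast h
    exact_mod_cast h'
  · intro h
    have h' : t ^ 2 = 1 * p ^ k 0 + 2 * p ^ k 1 + 3 * p ^ k 2 + 2 * p ^ k 3 + 1 * p ^ k 4 := by
      exact_mod_cast h
    exact_mod_cast h'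

theorem cluster_sol (p : ℕ) (hp : 2 ≤ p) (U : Ultrafilter ℕ) (hU : (U : Filter ℕ) ≤ atTop)
    (P : ℝ[X]) (h : ∀ᶠ a in (U : Filter ℕ), ∃ t : ℕ, Sol p t ∧ P.eval ((p : ℝ) ^ a) = (t : ℝ) ^ 2) :
    (∀ d, 0 ≤ P.coeff d) ∧ P.support.card ≤ 5 := by
  have h2 : ∀ᶠ a in (U : Filter ℕ), ∃ k : Fin 5 → ℤ,
      P.eval ((p : ℝ) ^ a) = ∑ j, gR j * (p : ℝ) ^ (k j) := by
    filter_upwards [h] with a ha
    obtain ⟨t, ⟨k, hk⟩, ht⟩ := ha
    refine ⟨fun j => (k j : ℤ), ?_⟩
    rw [ht, hk]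
    simp
  have h3 : ∃ k : ℕ → Fin 5 → ℤ, ∀ᶠ a in (U : Filter ℕ),
      P.eval ((p : ℝ) ^ a) = ∑ j, gR j * (p : ℝ) ^ (k a j) := by
    classical
    refine ⟨fun a => if h : ∃ k : Fin 5 → ℤ,
      P.eval ((p : ℝ) ^ a) = ∑ j, gR j * (p : ℝ) ^ (k j) then h.choose else 0, ?_⟩
    filter_upwards [h2] with a ha
    rw [dif_pos ha]
    exact ha.choose_spec
  obtain ⟨k, hk⟩ := h3
  have hp1 : (1 : ℝ) < p := by exact_mod_cast (by omega : 1 < p)
  have := cluster (p : ℝ) hp1 gR gR_pos U hU k P.support.card P Finset.univ rfl hk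
  simpa using this

theorem ap_case (p : ℕ) (hp : 2 ≤ p) (u v : ℕ) (hv : 0 < v)
    (h : ∀ n : ℕ, Sol p (u + v * n)) : False := by
  have h1 := cluster_sol p hp (hyperfilter ℕ) (by
      rw [← Nat.cofinite_eq_atTop]; exact hyperfilter_le_cofinite)
    ((C (u : ℝ) + C (v : ℝ) * (X + X ^ 3 + X ^ 9)) ^ 2)
    (Eventually.of_forall fun a => ⟨u + v * (p ^ a + (p ^ a) ^ 3 + (p ^ a) ^ 9), h _, by
      simp⟩)
  obtain ⟨_, hcard⟩ := h1
  have hP : ((C (u : ℝ) + C (v : ℝ) * (X + X ^ 3 + X ^ 9)) ^ 2 : ℝ[X])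
      = C ((u : ℝ) ^ 2) + C (2 * (u : ℝ) * v) * X ^ 1 + C ((v : ℝ) ^ 2) * X ^ 2
        + C (2 * (u : ℝ) * v) * X ^ 3 + C (2 * (v : ℝ) ^ 2) * X ^ 4
        + C ((v : ℝ) ^ 2) * X ^ 6 + C (2 * (u : ℝ) * v) * X ^ 9 + C (2 * (v : ℝ) ^ 2) * X ^ 10
        + C (2 * (v : ℝ) ^ 2) * X ^ 12 + C ((v : ℝ) ^ 2) * X ^ 18 := by
    simp only [map_mul, map_pow, map_ofNat]
    ring
  rw [hP] at hcard
  set P : ℝ[X] := C ((u : ℝ) ^ 2) + C (2 * (u : ℝ) * v) * X ^ 1 + C ((v : ℝ) ^ 2) * X ^ 2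
        + C (2 * (u : ℝ) * v) * X ^ 3 + C (2 * (v : ℝ) ^ 2) * X ^ 4
        + C ((v : ℝ) ^ 2) * X ^ 6 + C (2 * (u : ℝ) * v) * X ^ 9 + C (2 * (v : ℝ) ^ 2) * X ^ 10
        + C (2 * (v : ℝ) ^ 2) * X ^ 12 + C ((v : ℝ) ^ 2) * X ^ 18 with hPdef
  have hv' : (v : ℝ) ≠ 0 := by exact_mod_cast hv.ne'
  have hsub : ({2, 4, 6, 10, 12, 18} : Finset ℕ) ⊆ P.support := by
    intro d hd
    rw [mem_support_iff, hPdef]
    simp only [Finset.mem_insert, Finset.mem_singleton] at hd
    simp only [coeff_add, coeff_C_mul, coeff_X_pow, coeff_C]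
    rcases hd with rfl | rfl | rfl | rfl | rfl | rfl <;> norm_num <;> exact hv.ne'
  have := Finset.card_le_card hsub
  have h6 : ({2, 4, 6, 10, 12, 18} : Finset ℕ).card = 6 := by decide
  omega

theorem exists_period (p d : ℕ) (hp : 2 ≤ p) (hd : 0 < d) :
    ∃ K L : ℕ, 0 < L ∧ d ∣ p ^ K * (p ^ L - 1) := by
  have : NeZero d := ⟨hd.ne'⟩
  obtain ⟨x, y, hxy, hf⟩ := Finite.exists_ne_map_eq_of_infinite (fun n : ℕ => ((p : ZMod d)) ^ n)
  wlog hlt : x < y generalizing x y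
  · exact this y x hxy.symm hf.symm (by omega)
  refine ⟨x, y - x, by omega, ?_⟩
  have h1 : ((p ^ x : ℕ) : ZMod d) = ((p ^ y : ℕ) : ZMod d) := by
    push_cast
    exact hf
  rw [ZMod.natCast_eq_natCast_iff] at h1
  have h2 : d ∣ p ^ y - p ^ x := (Nat.modEq_iff_dvd' (Nat.pow_le_pow_right (by omega) hlt.le)).1 h1
  have h3 : p ^ x * (p ^ (y - x) - 1) = p ^ y - p ^ x := by
    rw [Nat.mul_sub, mul_one, ← pow_add]
    congr 2
    omega
  rw [h3]
  exact h2

theorem psum_case (p : ℕ) (hp : 2 ≤ p) (m : ℕ) (c : Fin m → ℚ) (k : Fin m → ℕ)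
    (hT : ∀ t : ℕ, (∃ n : Fin m → ℕ, (t : ℚ) = ∑ j, c j * (p : ℚ) ^ (k j * n j)) → Sol p t)
    (I : Set ℕ) (hI : I.Infinite)
    (hmem : ∀ a ∈ I, ∃ n : Fin m → ℕ,
      ((p ^ (2 * a) + p ^ a + 1 : ℕ) : ℚ) = ∑ j, c j * (p : ℚ) ^ (k j * n j)) : False := by
  choose! ν hν using hmem
  have hp1 : (1 : ℝ) < p := by exact_mod_cast (by omega : 1 < p)
  have hp0 : (0 : ℝ) < p := by linarith
  -- the ultrafilter
  have hne : (atTop ⊓ 𝓟 I : Filter ℕ).NeBot := by
    rw [← frequently_mem_iff_neBot]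
    exact Nat.frequently_atTop_iff_infinite.2 hI
  set U : Ultrafilter ℕ := Ultrafilter.of (atTop ⊓ 𝓟 I) with hUdef
  have hU1 : (U : Filter ℕ) ≤ atTop ⊓ 𝓟 I := Ultrafilter.of_le _
  have hU : (U : Filter ℕ) ≤ atTop := hU1.trans inf_le_left
  have hUI : ∀ᶠ a in (U : Filter ℕ), a ∈ I := by
    have : (U : Filter ℕ) ≤ 𝓟 I := hU1.trans inf_le_right
    exact this (mem_principal_self I)
  set Na : ℕ → ℝ := fun a => ((p : ℝ) ^ a) ^ 2 + (p : ℝ) ^ a + 1 with hNa
  have hpa : ∀ a : ℕ, 1 ≤ (p : ℝ) ^ a := fun a => one_le_pow₀ hp1.le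
  have hNaTop : Tendsto Na (U : Filter ℕ) atTop := by
    have h2 : Tendsto (fun a : ℕ => (p : ℝ) ^ a) (U : Filter ℕ) atTop :=
      (tendsto_pow_atTop_atTop_of_one_lt hp1).mono_left hU
    refine tendsto_atTop_mono (fun a => ?_) h2
    simp only [hNa]
    nlinarith [hpa a, sq_nonneg ((p : ℝ) ^ a)]
  have hsumR : ∀ a ∈ I, Na a = ∑ j, (c j : ℝ) * (p : ℝ) ^ (k j * ν a j) := by
    intro a ha
    have h1 := hν a ha
    have h2 : (((p ^ (2 * a) + p ^ a + 1 : ℕ) : ℚ) : ℝ)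
        = ((∑ j, c j * (p : ℚ) ^ (k j * ν a j) : ℚ) : ℝ) := by rw [h1]
    push_cast at h2
    rw [← h2, hNa]
    simp only
    ring
  have hm : 0 < m := by
    rcases Nat.eq_zero_or_pos m with h0 | h0
    · exfalso
      obtain ⟨a, ha⟩ := hI.nonempty
      have h1 := hsumR a ha
      subst h0
      simp only [Finset.univ_eq_empty, Finset.sum_empty] at h1
      simp only [hNa] at h1
      nlinarith [hpa a, sq_nonneg ((p : ℝ) ^ a)]
    · exact h0
  have hmR : (0 : ℝ) < m := by exact_mod_cast hm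
  -- a dominating positive term
  have hex : ∃ j0 : Fin m, ∀ᶠ a in (U : Filter ℕ), Na a / m ≤ (c j0 : ℝ) * (p : ℝ) ^ (k j0 * ν a j0) := by
    by_contra hcon
    push Not at hcon
    have h1 : ∀ j0 : Fin m, ∀ᶠ a in (U : Filter ℕ),
        (c j0 : ℝ) * (p : ℝ) ^ (k j0 * ν a j0) < Na a / m := by
      intro j0
      exact hcon j0
    have h2 : ∀ᶠ a in (U : Filter ℕ), ∀ j0 : Fin m,
        (c j0 : ℝ) * (p : ℝ) ^ (k j0 * ν a j0) < Na a / m := Filter.eventually_all.2 h1
    obtain ⟨a, haI, ha⟩ := (hUI.and h2).exists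
    have h3 : ∑ j, (c j : ℝ) * (p : ℝ) ^ (k j * ν a j) < ∑ j : Fin m, Na a / m := by
      have : Nonempty (Fin m) := ⟨⟨0, hm⟩⟩
      exact Finset.sum_lt_sum_of_nonempty Finset.univ_nonempty fun j _ => ha j
    rw [← hsumR a haI] at h3
    simp only [Finset.sum_const, Finset.card_univ, Fintype.card_fin, nsmul_eq_mul] at h3
    rw [mul_div_cancel₀ _ hmR.ne'] at h3
    exact lt_irrefl _ h3
  obtain ⟨j0, hj0⟩ := hex
  set E : ℕ → ℝ := fun a => (c j0 : ℝ) * (p : ℝ) ^ (k j0 * ν a j0) with hE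
  have hNapos : ∀ a, 0 < Na a := by
    intro a
    simp only [hNa]
    nlinarith [hpa a, sq_nonneg ((p : ℝ) ^ a)]
  have hcpos : 0 < (c j0 : ℝ) := by
    obtain ⟨a, ha⟩ := hj0.exists
    have h1 : 0 < (c j0 : ℝ) * (p : ℝ) ^ (k j0 * ν a j0) :=
      lt_of_lt_of_le (div_pos (hNapos a) hmR) ha
    exact pos_of_mul_pos_left h1 (pow_pos hp0 _).le
  have hETop : Tendsto E (U : Filter ℕ) atTop :=
    tendsto_atTop_mono' _ hj0 (hNaTop.atTop_div_const hmR)
  have hk0 : 0 < k j0 := by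
    rcases Nat.eq_zero_or_pos (k j0) with h0 | h0
    · exfalso
      obtain ⟨a, ha⟩ := (hETop.eventually_gt_atTop (c j0 : ℝ)).exists
      simp only [hE, h0, zero_mul, pow_zero, mul_one] at ha
      exact lt_irrefl _ ha
    · exact h0
  obtain ⟨K, L, hL, hdiv⟩ := exists_period p (c j0).den hp (c j0).den_pos
  have hKev : ∀ᶠ a in (U : Filter ℕ), K ≤ k j0 * ν a j0 := by
    filter_upwards [hETop.eventually_gt_atTop ((c j0 : ℝ) * (p : ℝ) ^ K)] with a ha
    by_contra hcon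
    push Not at hcon
    simp only [hE] at ha
    have : (p : ℝ) ^ (k j0 * ν a j0) ≤ (p : ℝ) ^ K := pow_le_pow_right₀ hp1.le hcon.le
    have := mul_le_mul_of_nonneg_left this hcpos.le
    linarith
  set M : ℕ := k j0 * L with hM
  have hMpos : 0 < M := Nat.mul_pos hk0 hL
  -- the ray of solutions
  have hray : ∀ a ∈ I, K ≤ k j0 * ν a j0 → ∀ i : ℕ, ∃ t : ℕ, Sol p t ∧
      (t : ℝ) = (Na a - E a) + E a * ((p : ℝ) ^ i) ^ M := by
    intro a ha hKa i
    have hnum : 0 < (c j0).num := by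
      rw [Rat.num_pos]
      exact_mod_cast hcpos
    obtain ⟨w, hw⟩ : (c j0).den ∣ p ^ (k j0 * ν a j0) * (p ^ (M * i) - 1) := by
      refine hdiv.trans (Nat.mul_dvd_mul (pow_dvd_pow p hKa) ?_)
      rw [hM, mul_comm (k j0) L, mul_assoc, pow_mul]
      exact Nat.sub_one_dvd_pow_sub_one _ _
    have hEw : E a * (((p : ℝ) ^ i) ^ M - 1) = ((c j0).num.toNat * w : ℕ) := by
      have h1 : (c j0 : ℝ) = ((c j0).num.toNat : ℝ) / ((c j0).den : ℝ) := by
        have h2 : ((c j0).num.toNat : ℤ) = (c j0).num := Int.toNat_of_nonneg hnum.le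
        have h3 : ((c j0).num.toNat : ℝ) = ((c j0).num : ℝ) := by
          exact_mod_cast h2
        rw [h3]
        exact_mod_cast (Rat.num_div_den (c j0)).symm
      have hden : ((c j0).den : ℝ) ≠ 0 := by
        exact_mod_cast (c j0).den_pos.ne'
      have h4 : (p : ℝ) ^ (k j0 * ν a j0) * (((p : ℝ) ^ i) ^ M - 1)
          = ((c j0).den : ℝ) * w := by
        have h5 : ((p ^ (k j0 * ν a j0) * (p ^ (M * i) - 1) : ℕ) : ℝ) = (((c j0).den * w : ℕ) : ℝ) := by
          rw [hw]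
        have h6 : 1 ≤ p ^ (M * i) := Nat.one_le_pow _ _ (by omega)
        push_cast [Nat.cast_sub h6] at h5
        rw [← h5, ← pow_mul, mul_comm i M]
      simp only [hE]
      rw [mul_assoc, h4, h1]
      push_cast
      field_simp
    refine ⟨(p ^ (2 * a) + p ^ a + 1) + (c j0).num.toNat * w, ?_, ?_⟩
    · apply hT
      refine ⟨Function.update (ν a) j0 (ν a j0 + L * i), ?_⟩
      have h7 : (((p ^ (2 * a) + p ^ a + 1) + (c j0).num.toNat * w : ℕ) : ℝ)
          = ∑ j, (c j : ℝ) * (p : ℝ) ^ (k j * Function.update (ν a) j0 (ν a j0 + L * i) j) := by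
        have h8 : ∑ j, (c j : ℝ) * (p : ℝ) ^ (k j * Function.update (ν a) j0 (ν a j0 + L * i) j)
            - ∑ j, (c j : ℝ) * (p : ℝ) ^ (k j * ν a j) = E a * (((p : ℝ) ^ i) ^ M - 1) := by
          rw [← Finset.sum_sub_distrib, Finset.sum_eq_single j0]
          · rw [Function.update_self, Nat.mul_add, pow_add]
            simp only [hE]
            have : k j0 * (L * i) = i * M := by rw [hM]; ring
            rw [this, pow_mul]
            ring
          · intro j _ hj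
            rw [Function.update_of_ne hj, sub_self]
          · intro h
            exact absurd (Finset.mem_univ j0) h
        have h9 := hsumR a ha
        have h10 : ((p ^ (2 * a) + p ^ a + 1 : ℕ) : ℝ) = Na a := by
          simp only [hNa]
          push_cast
          ring
        rw [Nat.cast_add, h10, ← hEw]
        linarith
      exact_mod_cast h7
    · have h10 : ((p ^ (2 * a) + p ^ a + 1 : ℕ) : ℝ) = Na a := by
          simp only [hNa]
          push_cast
          ring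
      rw [Nat.cast_add, h10, ← hEw]
      ring
  -- first level: E a ≤ Na a
  have hEle : ∀ᶠ a in (U : Filter ℕ), E a ≤ Na a := by
    filter_upwards [hUI, hKev, hj0] with a haI hKa hja
    have hEpos : 0 < E a := lt_of_lt_of_le (div_pos (hNapos a) hmR) hja
    have h1 := cluster_sol p hp (hyperfilter ℕ) (by
        rw [← Nat.cofinite_eq_atTop]; exact hyperfilter_le_cofinite)
      ((C (Na a - E a) + C (E a) * X ^ M) ^ 2)
      (Eventually.of_forall fun i => by
        obtain ⟨t, ht1, ht2⟩ := hray a haI hKa i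
        refine ⟨t, ht1, ?_⟩
        rw [ht2]
        simp)
    have h2 := h1.1 M
    have h3 : ((C (Na a - E a) + C (E a) * X ^ M) ^ 2 : ℝ[X])
        = C ((Na a - E a) ^ 2) + C (2 * (Na a - E a) * E a) * X ^ M
          + C ((E a) ^ 2) * X ^ (2 * M) := by
      simp only [map_mul, map_pow, map_ofNat]
      ring
    rw [h3] at h2
    have h4 : M ≠ 2 * M := by omega
    simp only [coeff_add, coeff_C_mul, coeff_X_pow, coeff_C, hMpos.ne', h4, if_false, if_true,
      mul_one, mul_zero, add_zero, zero_add] at h2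
    by_contra hcon
    push Not at hcon
    have h5 : (Na a - E a) * E a < 0 := mul_neg_of_neg_of_pos (by linarith) hEpos
    linarith
  -- second level: the ratio is eventually constant
  have hratio : ∀ᶠ a in (U : Filter ℕ), (c j0 : ℝ) * (p : ℝ) ^ ((k j0 * ν a j0 : ℕ) - (2 * a : ℕ) : ℤ) ≤ 3
      ∧ 1 / m ≤ (c j0 : ℝ) * (p : ℝ) ^ ((k j0 * ν a j0 : ℕ) - (2 * a : ℕ) : ℤ) := by
    filter_upwards [hEle, hj0] with a ha1 ha2
    have h1 : (c j0 : ℝ) * (p : ℝ) ^ ((k j0 * ν a j0 : ℕ) - (2 * a : ℕ) : ℤ)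
        = E a / ((p : ℝ) ^ a) ^ 2 := by
      rw [zpow_sub₀ hp0.ne', zpow_natCast, zpow_natCast, mul_comm 2 a, pow_mul (p : ℝ) a 2, ← mul_div_assoc]
    rw [h1]
    have h2 : 0 < ((p : ℝ) ^ a) ^ 2 := by positivity
    have h3 := hpa a
    constructor
    · rw [div_le_iff₀ h2]
      simp only [hNa] at ha1
      nlinarith
    · rw [le_div_iff₀ h2]
      have h4 : 1 / (m : ℝ) * ((p : ℝ) ^ a) ^ 2 ≤ Na a / m := by
        rw [div_mul_eq_mul_div, one_mul]
        refine div_le_div_of_nonneg_right ?_ hmR.le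
        simp only [hNa]
        linarith
      exact h4.trans ha2
  have hconst : ∃ z : ℤ, ∀ᶠ a in (U : Filter ℕ), ((k j0 * ν a j0 : ℕ) - (2 * a : ℕ) : ℤ) = z := by
    rcases const_or_tendsto_zero (p : ℝ) hp1 U
      (fun a => ((k j0 * ν a j0 : ℕ) - (2 * a : ℕ) : ℤ)) (c j0 : ℝ) (3 / (c j0 : ℝ)) hcpos
      (by
        filter_upwards [hratio] with a ha
        rw [le_div_iff₀ hcpos, mul_comm]
        exact ha.1) with h | h
    · exact h
    · exfalso
      have h1 := h.eventually_lt_const (show (0 : ℝ) < 1 / m by positivity)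
      obtain ⟨a, ha1, ha2⟩ := (h1.and hratio).exists
      exact absurd ha1 (not_lt.2 ha2.2)
  obtain ⟨z, hz⟩ := hconst
  set lam : ℝ := (c j0 : ℝ) * (p : ℝ) ^ z with hlam
  have hlampos : 0 < lam := mul_pos hcpos (zpow_pos hp0 _)
  have hElam : ∀ᶠ a in (U : Filter ℕ), E a = lam * ((p : ℝ) ^ a) ^ 2 := by
    filter_upwards [hz] with a ha
    have h1 : ((k j0 * ν a j0 : ℕ) : ℤ) = z + ((a * 2 : ℕ) : ℤ) := by
      push_cast at ha ⊢
      linarith
    simp only [hE, hlam]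
    rw [← zpow_natCast (p : ℝ) (k j0 * ν a j0), h1, zpow_add₀ hp0.ne', zpow_natCast, pow_mul]
    ring
  -- final polynomial
  have hfin := cluster_sol p hp U hU
    ((C lam * X ^ (2 + 10 * M) + C (1 - lam) * X ^ 2 + X + 1) ^ 2) (by
      filter_upwards [hUI, hKev, hElam] with a haI hKa hEa
      obtain ⟨t, ht1, ht2⟩ := hray a haI hKa (10 * a)
      refine ⟨t, ht1, ?_⟩
      rw [ht2, hEa]
      simp only [hNa]
      simp only [eval_pow, eval_add, eval_mul, eval_C, eval_X, eval_one]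
      have h1 : ((p : ℝ) ^ (10 * a)) ^ M = ((p : ℝ) ^ a) ^ (10 * M) := by
        rw [← pow_mul, ← pow_mul]
        congr 1
        ring
      rw [h1, pow_add]
      ring)
  obtain ⟨_, hcard⟩ := hfin
  have hP : ((C lam * X ^ (2 + 10 * M) + C (1 - lam) * X ^ 2 + X + 1) ^ 2 : ℝ[X])
      = C 1 + C 2 * X ^ 1 + C (3 - 2 * lam) * X ^ 2 + C (2 * (1 - lam)) * X ^ 3
        + C ((1 - lam) ^ 2) * X ^ 4 + C (2 * lam) * X ^ (2 + 10 * M)
        + C (2 * lam) * X ^ (3 + 10 * M) + C (2 * lam * (1 - lam)) * X ^ (4 + 10 * M)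
        + C (lam ^ 2) * X ^ (4 + 20 * M) := by
    simp only [map_mul, map_pow, map_ofNat, map_sub, map_one]
    ring
  rw [hP] at hcard
  set P : ℝ[X] := C 1 + C 2 * X ^ 1 + C (3 - 2 * lam) * X ^ 2 + C (2 * (1 - lam)) * X ^ 3
        + C ((1 - lam) ^ 2) * X ^ 4 + C (2 * lam) * X ^ (2 + 10 * M)
        + C (2 * lam) * X ^ (3 + 10 * M) + C (2 * lam * (1 - lam)) * X ^ (4 + 10 * M)
        + C (lam ^ 2) * X ^ (4 + 20 * M) with hPdef
  have hc0 : P.coeff 0 = 1 := by
    rw [hPdef]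
    simp only [coeff_add, coeff_C_mul, coeff_X_pow, coeff_C]
    have e1 : ¬ (0 = 2 + 10 * M) := by omega
    have e2 : ¬ (0 = 3 + 10 * M) := by omega
    have e3 : ¬ (0 = 4 + 10 * M) := by omega
    have e4 : ¬ (0 = 4 + 20 * M) := by omega
    simp [e1, e2, e3, e4]
  have hc1 : P.coeff 1 = 2 := by
    rw [hPdef]
    simp only [coeff_add, coeff_C_mul, coeff_X_pow, coeff_C]
    have e1 : ¬ (1 = 2 + 10 * M) := by omega
    have e2 : ¬ (1 = 3 + 10 * M) := by omega
    have e3 : ¬ (1 = 4 + 10 * M) := by omega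
    have e4 : ¬ (1 = 4 + 20 * M) := by omega
    simp [e1, e2, e3, e4]
  have hc2 : P.coeff 2 = 3 - 2 * lam := by
    rw [hPdef]
    simp only [coeff_add, coeff_C_mul, coeff_X_pow, coeff_C]
    have e1 : ¬ (2 = 2 + 10 * M) := by omega
    have e2 : ¬ (2 = 3 + 10 * M) := by omega
    have e3 : ¬ (2 = 4 + 10 * M) := by omega
    have e4 : ¬ (2 = 4 + 20 * M) := by omega
    simp only [e1, e2, e3, e4]
    norm_num
  have hc3 : P.coeff 3 = 2 * (1 - lam) := by
    rw [hPdef]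
    simp only [coeff_add, coeff_C_mul, coeff_X_pow, coeff_C]
    have e1 : ¬ (3 = 2 + 10 * M) := by omega
    have e2 : ¬ (3 = 3 + 10 * M) := by omega
    have e3 : ¬ (3 = 4 + 10 * M) := by omega
    have e4 : ¬ (3 = 4 + 20 * M) := by omega
    simp only [e1, e2, e3, e4]
    norm_num
  have hc4 : P.coeff (2 + 10 * M) = 2 * lam := by
    rw [hPdef]
    simp only [coeff_add, coeff_C_mul, coeff_X_pow, coeff_C]
    have e0 : ¬ (2 + 10 * M = 0) := by omega
    have e1 : ¬ (2 + 10 * M = 1) := by omega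
    have e2 : ¬ (2 + 10 * M = 2) := by omega
    have e3 : ¬ (2 + 10 * M = 3) := by omega
    have e4 : ¬ (2 + 10 * M = 4) := by omega
    have e5 : ¬ (2 + 10 * M = 3 + 10 * M) := by omega
    have e6 : ¬ (2 + 10 * M = 4 + 10 * M) := by omega
    have e7 : ¬ (2 + 10 * M = 4 + 20 * M) := by omega
    simp only [e0, e1, e2, e3, e4, e5, e6, e7]
    norm_num
  have hc5 : P.coeff (3 + 10 * M) = 2 * lam := by
    rw [hPdef]
    simp only [coeff_add, coeff_C_mul, coeff_X_pow, coeff_C]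
    have e0 : ¬ (3 + 10 * M = 0) := by omega
    have e1 : ¬ (3 + 10 * M = 1) := by omega
    have e2 : ¬ (3 + 10 * M = 2) := by omega
    have e3 : ¬ (3 + 10 * M = 3) := by omega
    have e4 : ¬ (3 + 10 * M = 4) := by omega
    have e5 : ¬ (3 + 10 * M = 2 + 10 * M) := by omega
    have e6 : ¬ (3 + 10 * M = 4 + 10 * M) := by omega
    have e7 : ¬ (3 + 10 * M = 4 + 20 * M) := by omega
    simp only [e0, e1, e2, e3, e4, e5, e6, e7]
    norm_num
  have hc6 : P.coeff (4 + 20 * M) = lam ^ 2 := by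
    rw [hPdef]
    simp only [coeff_add, coeff_C_mul, coeff_X_pow, coeff_C]
    have e0 : ¬ (4 + 20 * M = 0) := by omega
    have e1 : ¬ (4 + 20 * M = 1) := by omega
    have e2 : ¬ (4 + 20 * M = 2) := by omega
    have e3 : ¬ (4 + 20 * M = 3) := by omega
    have e4 : ¬ (4 + 20 * M = 4) := by omega
    have e5 : ¬ (4 + 20 * M = 2 + 10 * M) := by omega
    have e6 : ¬ (4 + 20 * M = 3 + 10 * M) := by omega
    have e7 : ¬ (4 + 20 * M = 4 + 10 * M) := by omega
    simp only [e0, e1, e2, e3, e4, e5, e6, e7]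
    norm_num
  -- a sixth exponent
  obtain ⟨q, hq1, hq2⟩ : ∃ q : ℕ, (q = 2 ∨ q = 3) ∧ P.coeff q ≠ 0 := by
    by_cases h : (1 : ℝ) - lam = 0
    · refine ⟨2, Or.inl rfl, ?_⟩
      rw [hc2]
      intro h'
      linarith
    · refine ⟨3, Or.inr rfl, ?_⟩
      rw [hc3]
      exact mul_ne_zero two_ne_zero h
  have hsub : ({0, 1, q, 2 + 10 * M, 3 + 10 * M, 4 + 20 * M} : Finset ℕ) ⊆ P.support := by
    intro d hd
    rw [mem_support_iff]
    simp only [Finset.mem_insert, Finset.mem_singleton] at hd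
    rcases hd with rfl | rfl | rfl | rfl | rfl | rfl
    · rw [hc0]; exact one_ne_zero
    · rw [hc1]; exact two_ne_zero
    · exact hq2
    · rw [hc4]; positivity
    · rw [hc5]; positivity
    · rw [hc6]; positivity
  have hcard6 : ({0, 1, q, 2 + 10 * M, 3 + 10 * M, 4 + 20 * M} : Finset ℕ).card = 6 := by
    rcases hq1 with rfl | rfl
    · rw [Finset.card_insert_of_notMem, Finset.card_insert_of_notMem, Finset.card_insert_of_notMem,
        Finset.card_insert_of_notMem, Finset.card_insert_of_notMem, Finset.card_singleton] <;>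
      simp only [Finset.mem_insert, Finset.mem_singleton] <;> omega
    · rw [Finset.card_insert_of_notMem, Finset.card_insert_of_notMem, Finset.card_insert_of_notMem,
        Finset.card_insert_of_notMem, Finset.card_insert_of_notMem, Finset.card_singleton] <;>
      simp only [Finset.mem_insert, Finset.mem_singleton] <;> omega
  have := Finset.card_le_card hsub
  omega

/-- For every prime `p`, the set `S(z ^ 2; 1, 2, 3, 2, 1; p)` is not the set of nonnegative
integers in any finite union of arithmetic progressions and `p`-sum sets. -/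
theorem result (p : ℕ) (hp : p.Prime) :
    ¬ IsTraceOfFiniteUnion p (solSet p (X ^ 2) ![1, 2, 3, 2, 1]) := by
  rintro ⟨F, hFfin, hF, hiff⟩
  have hp2 := hp.two_le
  -- the linked family
  have hfam : ∀ a : ℕ, (p ^ (2 * a) + p ^ a + 1) ∈ solSet p (X ^ 2) ![1, 2, 3, 2, 1] := by
    intro a
    rw [mem_solSet_iff]
    refine ⟨![0, a, 2 * a, 3 * a, 4 * a], ?_⟩
    simp only [Fin.sum_univ_five, gR]
    simp only [Matrix.cons_val]
    push_cast
    ring
  have hcover : ∀ a : ℕ, ∃ A ∈ F, ((p ^ (2 * a) + p ^ a + 1 : ℕ) : ℚ) ∈ A := fun a =>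
    (hiff _).1 (hfam a)
  choose f hfF hfmem using hcover
  obtain ⟨A, hAF, hAinf⟩ : ∃ A ∈ F, (f ⁻¹' {A}).Infinite := by
    by_contra hcon
    push Not at hcon
    have h1 : (⋃ A ∈ F, f ⁻¹' {A}).Finite := hFfin.biUnion fun A hA => hcon A hA
    have h2 : (⋃ A ∈ F, f ⁻¹' {A}) = Set.univ := by
      ext a
      simp only [Set.mem_iUnion, Set.mem_preimage, Set.mem_singleton_iff, Set.mem_univ, iff_true]
      exact ⟨f a, hfF a, rfl⟩
    rw [h2] at h1
    exact Set.infinite_univ h1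
  have hmemA : ∀ a ∈ f ⁻¹' {A}, ((p ^ (2 * a) + p ^ a + 1 : ℕ) : ℚ) ∈ A := by
    intro a ha
    have : f a = A := ha
    rw [← this]
    exact hfmem a
  have hAS : ∀ t : ℕ, (t : ℚ) ∈ A → Sol p t := by
    intro t ht
    rw [← mem_solSet_iff]
    exact (hiff t).2 ⟨A, hAF, ht⟩
  rcases hF A hAF with ⟨u, v, hA⟩ | ⟨m, _, c, k, hA⟩
  · rcases Nat.eq_zero_or_pos v with hv | hv
    · -- a single point
      obtain ⟨a, ha, b, hb, hab⟩ := hAinf.nontrivial
      have h1 := hmemA a ha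
      have h2 := hmemA b hb
      rw [hA] at h1 h2
      obtain ⟨_, h1⟩ := h1
      obtain ⟨_, h2⟩ := h2
      rw [hv] at h1 h2
      simp only [Nat.cast_zero, zero_mul, add_zero] at h1 h2
      have h3 : p ^ (2 * a) + p ^ a + 1 = p ^ (2 * b) + p ^ b + 1 := by
        have : ((p ^ (2 * a) + p ^ a + 1 : ℕ) : ℚ) = ((p ^ (2 * b) + p ^ b + 1 : ℕ) : ℚ) := by
          rw [h1, h2]
        exact_mod_cast this
      have hmono : ∀ x y : ℕ, x < y → p ^ (2 * x) + p ^ x + 1 < p ^ (2 * y) + p ^ y + 1 := by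
        intro x y hxy
        have e1 : p ^ (2 * x) < p ^ (2 * y) := Nat.pow_lt_pow_right (by omega) (by omega)
        have e2 : p ^ x < p ^ y := Nat.pow_lt_pow_right (by omega) hxy
        omega
      rcases lt_or_gt_of_ne hab with h | h
      · exact absurd h3 (hmono _ _ h).ne
      · exact absurd h3 (hmono _ _ h).ne'
    · refine ap_case p hp2 u v hv fun n => hAS _ ?_
      rw [hA]
      exact ⟨n, by push_cast; ring⟩
  · refine psum_case p hp2 m c k (fun t ht => hAS t ?_) _ hAinf fun a ha => ?_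
    · rw [hA]
      exact ht
    · have := hmemA a ha
      rw [hA] at this
      exact this

/-- Literal reading: if `S`, viewed inside `ℚ`, equals a finite union of arithmetic progressions
and `p`-sum sets, then `IsTraceOfFiniteUnion p S` holds. -/
theorem isTrace_of_eq_union (p : ℕ) (S : Set ℕ) (F : Set (Set ℚ)) (hfin : F.Finite)
    (hF : ∀ A ∈ F, IsAP A ∨ IsPSumSet p A) (h : (fun n : ℕ => (n : ℚ)) '' S = ⋃₀ F) :
    IsTraceOfFiniteUnion p S := by
  refine ⟨F, hfin, hF, fun n => ?_⟩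
  rw [← Set.mem_sUnion, ← h]
  constructor
  · intro hn
    exact ⟨n, hn, rfl⟩
  · rintro ⟨m, hm, hmn⟩
    have hmn' : (m : ℚ) = (n : ℚ) := hmn
    have : m = n := by exact_mod_cast hmn'
    rwa [← this]

/-- In particular the assertion of Q1 is false (for every prime). -/
theorem Q1_false (p : ℕ) (hp : p.Prime) :
    ¬ ∀ (f : (AlgebraicClosure ℚ)[X]) (s : ℕ), 1 ≤ s → ∀ g : Fin s → AlgebraicClosure ℚ,
      ∃ F : Set (Set ℚ), F.Finite ∧ (∀ A ∈ F, IsAP A ∨ IsPSumSet p A) ∧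
        (fun n : ℕ => (n : ℚ)) '' solSet p f g = ⋃₀ F := by
  intro h
  obtain ⟨F, h1, h2, h3⟩ := h (X ^ 2) 5 (by norm_num) ![1, 2, 3, 2, 1]
  exact result p hp (isTrace_of_eq_union p _ F h1 h2 h3)

end Pool.Agent.Results.MP_a804c6_nt.LinkedExponents
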